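import Mathlib
import Pool.Agent.Work.MP_3218de_al.OL.Asm

set_option autoImplicit false

/-!
# MP_3218de_al: one countable ordinal bounds all proper subgroups of an example

Let `G` be a nontrivial perfect locally finite `p`-group all of whose proper subgroups are solvable
and hypercentral.  We prove that there is one countable ordinal `α` such that for every proper
subgroup `H` of `G` the whole group `G` is the term with index `α` of the upper central series
relative to `H`; in particular every proper subgroup of `G` is hypercentral of length at most `α`.

`Pool.Agent.OL3218.ZO N α` is the term with index `α` of the transfinite upper central series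
relative to the subgroup `N` of the ambient group: `x ∈ ZO N α` if and only if `x = 1` or there is
`β < α` such that `x * y * x⁻¹ * y⁻¹ ∈ ZO N β` for all `y ∈ N`.  For `x ∈ N` this is the term with
index `α` of the upper central series of `N`.
-/

namespace Pool.Agent.Results.MP_3218de_al.CountableLength

open Ordinal Pool.Agent.OL3218

theorem result (p : ℕ) (G : Type) [Group G] (hp : p.Prime) (hnt : Nontrivial G)
    (hpg : IsPGroup p G) (hperf : commutator G = ⊤)
    (hlf : ∀ s : Finset G, Finite (Subgroup.closure (s : Set G)))
    (hprop : ∀ H : Subgroup G, H ≠ ⊤ →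
      (Group.IsSolvable H ∧
        ∀ N : Subgroup H, N.Normal → N ≠ ⊤ →
          ∃ x : H, x ∉ N ∧ ∀ y : H, x * y * x⁻¹ * y⁻¹ ∈ N)) :
    ∃ α : Ordinal.{0}, α < ω₁ ∧ ∀ H : Subgroup G, H ≠ ⊤ → ∀ x : G, x ∈ ZO H α :=
  uniform_rel ⟨hp, hnt, hpg, hperf, hlf, hprop⟩

end Pool.Agent.Results.MP_3218de_al.CountableLength
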