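import Mathlib
import Pool.Agent.Work.MP_3218de_al.OL.Asm

set_option autoImplicit false

/-!
# MP_3218de_al: the first height in an example is a countable power of ω

Let `G` be a nontrivial perfect locally finite `p`-group all of whose proper subgroups are solvable
and hypercentral.  We prove that there is an ordinal `γ` with `2 ≤ γ` and `ω ^ γ < ω₁` such that

* for every image `Q` of `G`, every noncentral `x` in `Q` and every `δ < ω ^ γ` there is a finite
  subset `S` of `Q` containing `x` such that `x` is not in the term with index `δ` of the upper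
  central series of the normal closure of `S`;
* some image `Q` of `G` with trivial centre has a nontrivial elementary abelian normal subgroup `V`
  all elements of which lie in the term with index `ω ^ γ` of the upper central series relative to
  the normal closure of `S`, for every finite subset `S` of `Q`.

`Pool.Agent.OL3218.ZO N α` is the term with index `α` of the transfinite upper central series
relative to the subgroup `N` of the ambient group: `x ∈ ZO N α` if and only if `x = 1` or there is
`β < α` such that `x * y * x⁻¹ * y⁻¹ ∈ ZO N β` for all `y ∈ N`.  For `x ∈ N` this is the term with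
index `α` of the upper central series of `N`.
-/

namespace Pool.Agent.Results.MP_3218de_al.FirstHeight

open Ordinal Pool.Agent.OL3218

theorem result (p : ℕ) (G : Type) [Group G] (hp : p.Prime) (hnt : Nontrivial G)
    (hpg : IsPGroup p G) (hperf : commutator G = ⊤)
    (hlf : ∀ s : Finset G, Finite (Subgroup.closure (s : Set G)))
    (hprop : ∀ H : Subgroup G, H ≠ ⊤ →
      (Group.IsSolvable H ∧
        ∀ N : Subgroup H, N.Normal → N ≠ ⊤ →
          ∃ x : H, x ∉ N ∧ ∀ y : H, x * y * x⁻¹ * y⁻¹ ∈ N)) :
    ∃ γ : Ordinal.{0}, 2 ≤ γ ∧ ω ^ γ < ω₁ ∧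
      (∀ (Q : Type) [Group Q] (q : G →* Q), Function.Surjective q →
        ∀ x : Q, x ∉ Subgroup.center Q → ∀ δ < ω ^ γ, ∃ S : Finset Q, x ∈ S ∧
          x ∉ ZO (Subgroup.normalClosure (S : Set Q)) δ) ∧
      ∃ (Q : Type) (_ : Group Q) (q : G →* Q), Function.Surjective q ∧
        Subgroup.center Q = ⊥ ∧
        ∃ V : Subgroup Q, V.Normal ∧ V ≠ ⊥ ∧ (∀ x ∈ V, ∀ y ∈ V, x * y = y * x) ∧
          (∀ x ∈ V, x ^ p = 1) ∧
          ∀ x ∈ V, ∀ S : Finset Q, x ∈ ZO (Subgroup.normalClosure (S : Set Q)) (ω ^ γ) :=
  first_height ⟨hp, hnt, hpg, hperf, hlf, hprop⟩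

end Pool.Agent.Results.MP_3218de_al.FirstHeight
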