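import Mathlib
import Pool.Agent.Work.MP_3218de_al.HL.Low

set_option autoImplicit false

/-!
# MP_3218de_al: the examples have unbounded lower and upper length in the finite

Let `G` be a nontrivial perfect locally finite `p`-group all of whose proper subgroups are solvable
and hypercentral, and let `Q = G / M` be a nontrivial image of `G`.  We prove: `Q` is not its centre,
and for every noncentral element `x` of `Q` and all natural numbers `a`, `b` there is a finite
subset `S` of `Q` which contains `x` such that, `N` denoting the normal closure of `S` and `L` the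
normal closure of `x`, the subgroup `(Gm N)^[a] L` is not contained in the term `Z_{ω b}(N)` of the
upper central series of `N`.  Here `Gm N L` is the intersection of the subgroups
`L, [L, N], [L, N, N], ...`; in particular `(Gm N)^[a] L` is contained in the term `γ_{ω a}(N)` of
the lower central series of `N`, so that `γ_{ω a}(N)` is not contained in `Z_{ω b}(N)` either.

So in no nontrivial image of an example, and for no `a`, `b`, do all normal closures `N` of finite
subsets satisfy `γ_{ω a}(N) ≤ Z_{ω b}(N)`: they are not all residually nilpotent (`a = 1`,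
`b = 0`), not all residually nilpotent modulo `Z_{ω b}(N)` (`a = 1`), and not all hypercentral of
length at most `ω b` (`a = 0`); in particular the image is not a Fitting group.

* `Pool.Agent.HL3218.lcs N L` is the sequence `L, [L, N], [L, N, N], ...`, and
  `Pool.Agent.HL3218.Gm N L` is its intersection.
* `Pool.Agent.HL3218.stepS N A = {x | ∀ y ∈ N, x y x⁻¹ y⁻¹ ∈ A}` and `Pool.Agent.HL3218.ZS N b`, with
  `ZS N 0 = {1}` and `ZS N (b + 1) = ⋃ m, (stepS N)^[m] (ZS N b)`; the elements of `N` in `ZS N b`
  form the term with index `ω b` of the upper central series of `N`.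
-/

namespace Pool.Agent.Results.MP_3218de_al.LowerUpperLength

open Pool.Agent.HL3218

theorem result (p : ℕ) (G : Type) [Group G] (hp : p.Prime) (hnt : Nontrivial G)
    (hpg : IsPGroup p G) (hperf : commutator G = ⊤)
    (hlf : ∀ s : Finset G, Finite (Subgroup.closure (s : Set G)))
    (hprop : ∀ H : Subgroup G, H ≠ ⊤ →
      (Group.IsSolvable H ∧
        ∀ N : Subgroup H, N.Normal → N ≠ ⊤ →
          ∃ x : H, x ∉ N ∧ ∀ y : H, x * y * x⁻¹ * y⁻¹ ∈ N))
    (M : Subgroup G) [M.Normal] (hM : M ≠ ⊤) :
    Subgroup.center (G ⧸ M) ≠ ⊤ ∧
      ∀ (a b : ℕ) (x : G ⧸ M), x ∉ Subgroup.center (G ⧸ M) →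
        ∃ S : Finset (G ⧸ M), x ∈ S ∧
          ∃ y ∈ (Gm (Subgroup.normalClosure (S : Set (G ⧸ M))))^[a]
              (Subgroup.normalClosure {x}),
            y ∉ ZS (Subgroup.normalClosure (S : Set (G ⧸ M))) b :=
  mixed_main ⟨hp, hnt, hpg, hperf, hlf, hprop⟩ M hM

end Pool.Agent.Results.MP_3218de_al.LowerUpperLength
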