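import Mathlib
import Pool.Agent.Work.MP_3218de_al.UN.S5

set_option autoImplicit false

/-!
# MP_3218de_al: images of the examples are not subnormal in groups of units of rings

Let `G` be a nontrivial perfect locally finite `p`-group all of whose proper subgroups are solvable
and hypercentral, `A` an arbitrary associative ring with 1, `Z` a normal subgroup of the group of
units `Aˣ`, and `f : G →* Aˣ ⧸ Z` a nontrivial homomorphism such that `Z` centralises the preimage
`N` of `f(G)` in `Aˣ` (for instance `Z = 1`, or `Z` central in `Aˣ`).  We prove that for every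
natural number `r` there are a unit `u` of `A`, with `u - 1` nilpotent and `u` in the subring of `A`
generated by `N`, and elements `g₁, ..., g_r` of `G` such that the left normed commutator
`[u, f(g₁), ..., f(g_r)]` does not lie in `f(G)`.

Consequently `f(G)` is not subnormal in `Aˣ ⧸ Z`, nor in any subgroup of it which contains `f(G)` and
the images of all units `1 + x` with `x` nilpotent.  Every group embeds in the group of units of a
ring (its group ring), so the theorem is about subnormality.

The proof uses the theorem of the block `HL` that in no nontrivial image of an example all normal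
closures of finite subsets are nilpotent; see the files `UN/Stmts.lean` and `UN/S1.lean` to
`UN/S5.lean` in `Pool/Agent/Work/MP_3218de_al`.
-/

namespace Pool.Agent.Results.MP_3218de_al.UnitGroups

theorem result (p : ℕ) (G : Type) [Group G] (hp : p.Prime) (hnt : Nontrivial G)
    (hpg : IsPGroup p G) (hperf : commutator G = ⊤)
    (hlf : ∀ s : Finset G, Finite (Subgroup.closure (s : Set G)))
    (hprop : ∀ H : Subgroup G, H ≠ ⊤ →
      (Group.IsSolvable H ∧
        ∀ N : Subgroup H, N.Normal → N ≠ ⊤ →
          ∃ x : H, x ∉ N ∧ ∀ y : H, x * y * x⁻¹ * y⁻¹ ∈ N))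
    (A : Type*) [Ring A] (Z : Subgroup Aˣ) [Z.Normal] (f : G →* Aˣ ⧸ Z)
    (hZ : ∀ z ∈ Z, ∀ v : Aˣ, (v : Aˣ ⧸ Z) ∈ f.range → z * v = v * z)
    (hf : f ≠ 1) (r : ℕ) :
    ∃ u : Aˣ, IsNilpotent ((u : A) - 1) ∧
      (u : A) ∈ Subring.closure {a : A | ∃ v : Aˣ, (v : A) = a ∧ (v : Aˣ ⧸ Z) ∈ f.range} ∧
      ∃ l : List G, l.length = r ∧
        (l.map f).foldl (fun x y => x⁻¹ * y⁻¹ * x * y) (u : Aˣ ⧸ Z) ∉ f.range := by
  obtain ⟨u, h1, h2, h3⟩ :=
    Pool.Agent.UN.main_central ⟨hp, hnt, hpg, hperf, hlf, hprop⟩ Z f hZ hf r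
  exact ⟨u, h2, h1, h3⟩

end Pool.Agent.Results.MP_3218de_al.UnitGroups
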